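import Pool.Agent.H24.LSphereModel

set_option autoImplicit false

/-!
# Path geometry of a metric with four nondegenerate zeros
-/

namespace Pool.Agent.H24.LSphere

open Set MeasureTheory Pool.Agent.H24.Torus

/-! ### The distance to the half period lattice -/

lemma dl_nonneg (L x : ℝ) : 0 ≤ dl L x := abs_nonneg _

lemma dl_le {L : ℝ} (hL : 0 < L) (x : ℝ) (j : ℤ) : dl L x ≤ |x - j * (L / 2)| := by
  have hh : 0 < L / 2 := by linarith
  have h1 := round_le (x / (L / 2)) j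
  have h2 : ∀ z : ℝ, |x - z * (L / 2)| = |x / (L / 2) - z| * (L / 2) := by
    intro z
    rw [← abs_of_pos hh, ← abs_mul, abs_of_pos hh]
    congr 1
    field_simp
  unfold dl
  rw [h2, h2]
  exact mul_le_mul_of_nonneg_right h1 hh.le

lemma dl_le_quarter {L : ℝ} (hL : 0 < L) (x : ℝ) : dl L x ≤ L / 4 := by
  have hh : 0 < L / 2 := by linarith
  have h1 := abs_sub_round (x / (L / 2))
  have h2 : ∀ z : ℝ, |x - z * (L / 2)| = |x / (L / 2) - z| * (L / 2) := by
    intro z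
    rw [← abs_of_pos hh, ← abs_mul, abs_of_pos hh]
    congr 1
    field_simp
  unfold dl
  rw [h2]
  calc |x / (L / 2) - round (x / (L / 2))| * (L / 2) ≤ 1 / 2 * (L / 2) :=
        mul_le_mul_of_nonneg_right h1 hh.le
    _ = L / 4 := by ring

lemma dl_le_add {L : ℝ} (hL : 0 < L) (x y : ℝ) : dl L x ≤ |x - y| + dl L y := by
  refine (dl_le hL x (round (y / (L / 2)))).trans ?_
  unfold dl
  calc |x - round (y / (L / 2)) * (L / 2)|
      = |(x - y) + (y - round (y / (L / 2)) * (L / 2))| := by congr 1; ring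
    _ ≤ _ := abs_add_le _ _

lemma abs_dl_sub_le {L : ℝ} (hL : 0 < L) (x y : ℝ) : |dl L x - dl L y| ≤ |x - y| := by
  rw [abs_sub_le_iff]
  constructor
  · linarith [dl_le_add hL x y]
  · have := dl_le_add hL y x
    rw [abs_sub_comm y x] at this
    linarith

lemma continuous_dl {L : ℝ} (hL : 0 < L) : Continuous (dl L) := by
  have : LipschitzWith 1 (dl L) := LipschitzWith.of_dist_le_mul fun x y => by
    rw [Real.dist_eq, Real.dist_eq, NNReal.coe_one, one_mul]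
    exact abs_dl_sub_le hL x y
  exact this.continuous

lemma dl_add_int {L : ℝ} (hL : 0 < L) (x : ℝ) (j : ℤ) : dl L (x + j * (L / 2)) = dl L x := by
  have hh : 0 < L / 2 := by linarith
  unfold dl
  have h1 : (x + j * (L / 2)) / (L / 2) = x / (L / 2) + (j : ℤ) := by field_simp
  rw [h1, round_add_intCast]
  push_cast
  congr 1
  ring

lemma dl_neg {L : ℝ} (hL : 0 < L) (x : ℝ) : dl L (-x) = dl L x := by
  have key : ∀ y, dl L (-y) ≤ dl L y := by
    intro y
    refine (dl_le hL (-y) (-round (y / (L / 2)))).trans ?_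
    unfold dl
    rw [← abs_neg]
    apply le_of_eq
    congr 1
    push_cast
    ring
  refine le_antisymm (key x) ?_
  have := key (-x)
  rwa [neg_neg] at this

lemma dl_eq_abs {L : ℝ} (hL : 0 < L) {x : ℝ} (hx : |x| ≤ L / 4) : dl L x = |x| := by
  refine le_antisymm ?_ ?_
  · have := dl_le hL x 0
    simpa using this
  · obtain ⟨h1, h2⟩ := abs_le.mp hx
    unfold dl
    set z : ℤ := round (x / (L / 2)) with hz
    rcases lt_trichotomy z 0 with h | h | h
    · have h3 : (z : ℝ) ≤ -1 := by exact_mod_cast Int.le_sub_one_of_lt h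
      rw [abs_of_nonneg (a := x - z * (L / 2)) (by nlinarith)]
      rw [abs_le]
      constructor <;> nlinarith
    · rw [h]; simp
    · have h3 : (1 : ℝ) ≤ z := by exact_mod_cast h
      rw [abs_of_nonpos (a := x - z * (L / 2)) (by nlinarith)]
      rw [abs_le]
      constructor <;> nlinarith

lemma dB_nonneg (L1 L2 : ℝ) (p : ℝ × ℝ) : 0 ≤ dB L1 L2 p := le_max_of_le_left (dl_nonneg _ _)

lemma dB_le_add {L1 L2 : ℝ} (hL1 : 0 < L1) (hL2 : 0 < L2) (p q : ℝ × ℝ) :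
    dB L1 L2 p ≤ max |p.1 - q.1| |p.2 - q.2| + dB L1 L2 q := by
  unfold dB
  refine max_le ?_ ?_
  · exact (dl_le_add hL1 p.1 q.1).trans (add_le_add (le_max_left _ _) (le_max_left _ _))
  · exact (dl_le_add hL2 p.2 q.2).trans (add_le_add (le_max_right _ _) (le_max_right _ _))

lemma abs_dB_sub_le {L1 L2 : ℝ} (hL1 : 0 < L1) (hL2 : 0 < L2) (p q : ℝ × ℝ) :
    |dB L1 L2 p - dB L1 L2 q| ≤ max |p.1 - q.1| |p.2 - q.2| := by
  rw [abs_sub_le_iff]
  constructor
  · linarith [dB_le_add hL1 hL2 p q]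
  · have := dB_le_add hL1 hL2 q p
    rw [abs_sub_comm q.1, abs_sub_comm q.2] at this
    linarith

lemma continuous_dB {L1 L2 : ℝ} (hL1 : 0 < L1) (hL2 : 0 < L2) : Continuous (dB L1 L2) :=
  ((continuous_dl hL1).comp continuous_fst).max ((continuous_dl hL2).comp continuous_snd)

lemma dB_add_int {L1 L2 : ℝ} (hL1 : 0 < L1) (hL2 : 0 < L2) (p : ℝ × ℝ) (j k : ℤ) :
    dB L1 L2 (p.1 + j * (L1 / 2), p.2 + k * (L2 / 2)) = dB L1 L2 p := by
  unfold dB
  rw [dl_add_int hL1, dl_add_int hL2]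

lemma dB_neg {L1 L2 : ℝ} (hL1 : 0 < L1) (hL2 : 0 < L2) (p : ℝ × ℝ) :
    dB L1 L2 (-p) = dB L1 L2 p := by
  unfold dB
  rw [Prod.fst_neg, Prod.snd_neg, dl_neg hL1, dl_neg hL2]

/-! ### The primitive of `dl` -/

/-- The primitive of `dl`. -/
noncomputable def dlInt (L x : ℝ) : ℝ := ∫ t in (0 : ℝ)..x, dl L t

lemma dlInt_hasDerivAt {L : ℝ} (hL : 0 < L) (x : ℝ) : HasDerivAt (dlInt L) (dl L x) x :=
  ((continuous_dl hL).integral_hasStrictDerivAt 0 x).hasDerivAt

lemma dlInt_mono {L : ℝ} (hL : 0 < L) {a b : ℝ} (hab : a ≤ b) : dlInt L a ≤ dlInt L b := by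
  have h1 : dlInt L b - dlInt L a = ∫ t in a..b, dl L t := by
    unfold dlInt
    rw [intervalIntegral.integral_interval_sub_left]
    · exact (continuous_dl hL).intervalIntegrable _ _
    · exact (continuous_dl hL).intervalIntegrable _ _
  have h2 : 0 ≤ ∫ t in a..b, dl L t :=
    intervalIntegral.integral_nonneg hab fun t _ => dl_nonneg L t
  linarith

lemma dlInt_small {L : ℝ} (hL : 0 < L) {x : ℝ} (hx : |x| ≤ L / 4) :
    dlInt L x = x * |x| / 2 := by
  have h1 : dlInt L x = ∫ t in (0 : ℝ)..x, |t| := by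
    unfold dlInt
    apply intervalIntegral.integral_congr
    intro t ht
    apply dl_eq_abs hL
    rw [mem_uIcc] at ht
    rw [abs_le] at hx ⊢
    rcases ht with ⟨h1, h2⟩ | ⟨h1, h2⟩ <;> constructor <;> linarith
  rw [h1]
  rcases le_total 0 x with h | h
  · have h2 : ∫ t in (0 : ℝ)..x, |t| = ∫ t in (0 : ℝ)..x, t := by
      apply intervalIntegral.integral_congr
      intro t ht
      rw [uIcc_of_le h] at ht
      exact abs_of_nonneg ht.1
    rw [h2, integral_id, abs_of_nonneg h]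
    ring
  · have h2 : ∫ t in (0 : ℝ)..x, |t| = ∫ t in (0 : ℝ)..x, (-t) := by
      apply intervalIntegral.integral_congr
      intro t ht
      rw [uIcc_of_ge h] at ht
      exact abs_of_nonpos ht.2
    rw [h2, intervalIntegral.integral_neg, integral_id, abs_of_nonpos h]
    ring

lemma dl_periodic {L : ℝ} (hL : 0 < L) : Function.Periodic (dl L) (L / 2) := by
  intro x
  have := dl_add_int hL x 1
  simpa using this

lemma dlInt_period {L : ℝ} (hL : 0 < L) (x : ℝ) :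
    ∫ t in x..x + L / 2, dl L t = L ^ 2 / 16 := by
  have h1 := (dl_periodic hL).intervalIntegral_add_eq x (-(L / 4))
  rw [h1]
  have h2 : -(L / 4) + L / 2 = L / 4 := by ring
  rw [h2]
  have h3 : dlInt L (L / 4) - dlInt L (-(L / 4)) = ∫ t in (-(L / 4))..(L / 4), dl L t := by
    unfold dlInt
    rw [intervalIntegral.integral_interval_sub_left]
    · exact (continuous_dl hL).intervalIntegrable _ _
    · exact (continuous_dl hL).intervalIntegrable _ _
  rw [← h3, dlInt_small hL (by rw [abs_of_pos (by linarith)]),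
    dlInt_small hL (by rw [abs_neg, abs_of_pos (by linarith)]), abs_neg,
    abs_of_pos (by linarith : (0 : ℝ) < L / 4)]
  ring

lemma dlInt_shift {L : ℝ} (hL : 0 < L) (x : ℝ) (j : ℤ) :
    dlInt L (x + j * (L / 2)) = dlInt L x + j * (L ^ 2 / 16) := by
  have hint : ∀ a b, IntervalIntegrable (dl L) volume a b := fun a b =>
    (continuous_dl hL).intervalIntegrable _ _
  have h1 : dlInt L (x + j * (L / 2)) = dlInt L x + ∫ t in x..(x + j * (L / 2)), dl L t := by
    unfold dlInt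
    rw [intervalIntegral.integral_add_adjacent_intervals (hint _ _) (hint _ _)]
  have h2 := (dl_periodic hL).intervalIntegral_add_zsmul_eq j x hint
  rw [dlInt_period hL, zsmul_eq_mul, zsmul_eq_mul] at h2
  rw [h1, h2]

/-- The primitive grows quadratically. -/
lemma sq_le_dlInt_sub {L : ℝ} (hL : 0 < L) {a b : ℝ} (hab : a ≤ b) (hba : b - a ≤ L / 2) :
    (b - a) ^ 2 / 4 ≤ dlInt L b - dlInt L a := by
  set j : ℤ := round (a / (L / 2)) with hj
  set α : ℝ := a - j * (L / 2) with hα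
  have hαb : |α| ≤ L / 4 := dl_le_quarter hL a
  set b' : ℝ := b - j * (L / 2) with hb'
  have ha : a = α + j * (L / 2) := by rw [hα]; ring
  have hb : b = b' + j * (L / 2) := by rw [hb']; ring
  have hDa : dlInt L a = dlInt L α + j * (L ^ 2 / 16) := by
    conv_lhs => rw [ha]
    exact dlInt_shift hL α j
  have hDb : dlInt L b = dlInt L b' + j * (L ^ 2 / 16) := by
    conv_lhs => rw [hb]
    exact dlInt_shift hL b' j
  have e1 : b - a = b' - α := by rw [hα, hb']; ring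
  rw [hDa, hDb, e1]
  have hab' : α ≤ b' := by rw [hα, hb']; linarith
  have hba' : b' - α ≤ L / 2 := by rw [← e1]; exact hba
  rw [dlInt_small hL hαb]
  obtain ⟨hα1, hα2⟩ := abs_le.mp hαb
  rcases le_total b' (L / 4) with hcase | hcase
  · rw [dlInt_small hL (abs_le.mpr ⟨by linarith, hcase⟩)]
    rcases le_total 0 α with h0 | h0
    · rw [abs_of_nonneg h0, abs_of_nonneg (h0.trans hab')]
      nlinarith
    · rcases le_total 0 b' with h1 | h1
      · rw [abs_of_nonpos h0, abs_of_nonneg h1]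
        nlinarith [sq_nonneg (b' + α)]
      · rw [abs_of_nonpos h0, abs_of_nonpos h1]
        nlinarith
  · set β : ℝ := b' - L / 2 with hβ
    have hb'' : b' = β + (1 : ℤ) * (L / 2) := by rw [hβ]; push_cast; ring
    have hβb : |β| ≤ L / 4 := by
      rw [abs_le, hβ]; constructor <;> linarith
    have hDb' : dlInt L b' = β * |β| / 2 + L ^ 2 / 16 := by
      conv_lhs => rw [hb'']
      rw [dlInt_shift hL β 1, dlInt_small hL hβb]
      push_cast
      ring
    rw [hDb']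
    have e2 : b' - α = L / 2 + β - α := by rw [hβ]; ring
    rw [e2]
    have hβα : β ≤ α := by rw [hβ]; linarith
    obtain ⟨hβ1, hβ2⟩ := abs_le.mp hβb
    rcases le_total 0 α with h0 | h0
    · rcases le_total 0 β with h1 | h1
      · rw [abs_of_nonneg h0, abs_of_nonneg h1]
        nlinarith [mul_nonneg (sub_nonneg.mpr hβα) (by linarith : (0 : ℝ) ≤ L / 4 - 3 * α / 4 - β / 4)]
      · rw [abs_of_nonneg h0, abs_of_nonpos h1]
        have k1 := mul_nonneg h0 (by linarith : (0 : ℝ) ≤ L / 4 - α)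
        have k2 := mul_nonneg (neg_nonneg.mpr h1) (by linarith : (0 : ℝ) ≤ L / 4 + β)
        have k3 := sq_nonneg (α + β)
        nlinarith only [k1, k2, k3]
    · have h1 : β ≤ 0 := hβα.trans h0
      rw [abs_of_nonpos h0, abs_of_nonpos h1]
      nlinarith [mul_nonneg (sub_nonneg.mpr hβα) (by linarith : (0 : ℝ) ≤ L / 4 + 3 * β / 4 + α / 4)]

/-- A bound on the variation of the primitive bounds the variation of the variable. -/
lemma sq_le_of_dlInt {L : ℝ} (hL : 0 < L) {c : ℝ} (hc : c < L ^ 2 / 16) {a b : ℝ}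
    (h : |dlInt L b - dlInt L a| ≤ c) : (b - a) ^ 2 ≤ 4 * c := by
  have key : ∀ a b : ℝ, a ≤ b → |dlInt L b - dlInt L a| ≤ c → (b - a) ^ 2 ≤ 4 * c := by
    intro a b hab h
    have h1 : dlInt L b - dlInt L a ≤ c := (le_abs_self _).trans h
    rcases le_total (b - a) (L / 2) with h2 | h2
    · have := sq_le_dlInt_sub hL hab h2
      linarith
    · exfalso
      have h3 := sq_le_dlInt_sub hL (a := a) (b := a + L / 2) (by linarith) (by linarith)
      have h4 := dlInt_mono hL (a := a + L / 2) (b := b) (by linarith)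
      have h5 : (a + L / 2 - a) ^ 2 / 4 = L ^ 2 / 16 := by ring
      linarith
  rcases le_total a b with hab | hab
  · exact key a b hab h
  · have := key b a hab (by rw [abs_sub_comm]; exact h)
    calc (b - a) ^ 2 = (a - b) ^ 2 := by ring
      _ ≤ 4 * c := this

/-! ### Quadratic bounds -/

lemma near_quad {f : ℝ → ℝ} (hf : ContDiff ℝ 2 f) {x0 : ℝ} (h0 : f x0 = 0)
    (h1 : deriv f x0 = 0) (h2 : 0 < deriv (deriv f) x0) :
    ∃ ε c C : ℝ, 0 < ε ∧ 0 < c ∧ 0 < C ∧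
      ∀ t, |t| ≤ ε → c * t ^ 2 ≤ f (x0 + t) ∧ f (x0 + t) ≤ C * t ^ 2 := by
  set m : ℝ := deriv (deriv f) x0 with hm
  have hf1 : ∀ x, HasDerivAt f (deriv f x) x := fun x =>
    (hf.differentiable (by norm_num) x).hasDerivAt
  have hf2 : HasDerivAt (deriv f) m x0 := by
    have h3 : ContDiff ℝ 1 (deriv f) := by
      have h4 : ContDiff ℝ (1 + 1) f := by
        have : (1 + 1 : WithTop ℕ∞) = 2 := by norm_num
        rw [this]; exact hf
      exact (contDiff_succ_iff_deriv.mp h4).2.2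
    exact (h3.differentiable one_ne_zero x0).hasDerivAt
  have h4 : ∀ᶠ x in nhds x0, ‖deriv f x - deriv f x0 - (x - x0) • m‖ ≤ m / 4 * ‖x - x0‖ :=
    (hasDerivAt_iff_isLittleO.mp hf2).def (by positivity)
  rw [Metric.eventually_nhds_iff] at h4
  obtain ⟨ε, hε, h5⟩ := h4
  refine ⟨ε / 2, m / 4, 3 * m / 4, by positivity, by positivity, by positivity, ?_⟩
  intro t ht
  have h6 : ∀ x ∈ uIcc x0 (x0 + t), ‖deriv f x - m * (x - x0)‖ ≤ m / 4 * |t| := by
    intro x hx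
    have hxt : |x - x0| ≤ |t| := by
      have := abs_sub_left_of_mem_uIcc hx
      simpa using this
    have h7 := h5 (y := x) (by rw [Real.dist_eq]; linarith)
    rw [h1, sub_zero, smul_eq_mul, mul_comm (x - x0)] at h7
    refine h7.trans ?_
    rw [Real.norm_eq_abs]
    exact mul_le_mul_of_nonneg_left hxt (by positivity)
  have h7 : ∀ x ∈ uIcc x0 (x0 + t), HasDerivWithinAt (fun x => f x - m / 2 * (x - x0) ^ 2)
      (deriv f x - m * (x - x0)) (uIcc x0 (x0 + t)) x := by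
    intro x _
    have h8 : HasDerivAt (fun x => m / 2 * (x - x0) ^ 2) (m * (x - x0)) x := by
      have h9 := (((hasDerivAt_id x).sub_const x0).pow 2).const_mul (m / 2)
      refine h9.congr_deriv ?_
      simp
      ring
    exact ((hf1 x).sub h8).hasDerivWithinAt
  have h8 := Convex.norm_image_sub_le_of_norm_hasDerivWithin_le h7 h6 (convex_uIcc x0 (x0 + t))
    left_mem_uIcc right_mem_uIcc
  rw [Real.norm_eq_abs] at h8
  have e1 : (f (x0 + t) - m / 2 * (x0 + t - x0) ^ 2 - (f x0 - m / 2 * (x0 - x0) ^ 2)) =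
      f (x0 + t) - m / 2 * t ^ 2 := by rw [h0]; ring
  have e2 : m / 4 * |t| * ‖x0 + t - x0‖ = m / 4 * t ^ 2 := by
    rw [Real.norm_eq_abs, add_sub_cancel_left, mul_assoc, abs_mul_abs_self]
    ring
  rw [e1, e2] at h8
  obtain ⟨h9, h10⟩ := abs_le.mp h8
  constructor <;> nlinarith

lemma periodic_quad {L : ℝ} (hL : 0 < L) {f : ℝ → ℝ} (hf : ContDiff ℝ 2 f)
    (hper : Function.Periodic f L) (hpos : ∀ x, 0 < dl L x → 0 < f x) (h0 : f 0 = 0)
    (h1 : f (L / 2) = 0) (hd0 : 0 < deriv (deriv f) 0) (hd1 : 0 < deriv (deriv f) (L / 2)) :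
    ∃ c C : ℝ, 0 < c ∧ 0 < C ∧ ∀ x, c * dl L x ^ 2 ≤ f x ∧ f x ≤ C * dl L x ^ 2 := by
  -- every point is a half period plus a small number
  have hrep : ∀ x, ∃ t, |t| = dl L x ∧ (f x = f (0 + t) ∨ f x = f (L / 2 + t)) := by
    intro x
    set z : ℤ := round (x / (L / 2)) with hz
    refine ⟨x - z * (L / 2), rfl, ?_⟩
    rcases Int.even_or_odd' z with ⟨k, hk | hk⟩
    · left
      have e1 : x = (0 + (x - z * (L / 2))) + k * L := by rw [hk]; push_cast; ring
      conv_lhs => rw [e1]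
      exact hper.int_mul k _
    · right
      have e1 : x = (L / 2 + (x - z * (L / 2))) + k * L := by rw [hk]; push_cast; ring
      conv_lhs => rw [e1]
      exact hper.int_mul k _
  have hnn : ∀ x, 0 ≤ f x := by
    intro x
    rcases (dl_nonneg L x).lt_or_eq with h | h
    · exact (hpos x h).le
    · obtain ⟨t, ht, h2⟩ := hrep x
      rw [← h, abs_eq_zero] at ht
      rw [ht, add_zero, add_zero] at h2
      rcases h2 with h2 | h2
      · rw [h2, h0]
      · rw [h2, h1]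
  have hD0 : deriv f 0 = 0 := by
    apply IsLocalMin.deriv_eq_zero
    filter_upwards with x
    rw [h0]; exact hnn x
  have hD1 : deriv f (L / 2) = 0 := by
    apply IsLocalMin.deriv_eq_zero
    filter_upwards with x
    rw [h1]; exact hnn x
  obtain ⟨ε0, c0, C0, hε0, hc0, hC0, hq0⟩ := near_quad hf h0 hD0 hd0
  obtain ⟨ε1, c1, C1, hε1, hc1, hC1, hq1⟩ := near_quad hf h1 hD1 hd1
  set ε : ℝ := min ε0 ε1 with hε
  have hε' : 0 < ε := lt_min hε0 hε1
  have hnear : ∀ x, dl L x ≤ ε → min c0 c1 * dl L x ^ 2 ≤ f x ∧ f x ≤ max C0 C1 * dl L x ^ 2 := by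
    intro x hx
    obtain ⟨t, ht, h2⟩ := hrep x
    have ht2 : dl L x ^ 2 = t ^ 2 := by rw [← ht, sq_abs]
    rw [ht2]
    rw [← ht] at hx
    rcases h2 with h2 | h2
    · obtain ⟨h3, h4⟩ := hq0 t (hx.trans (min_le_left _ _))
      rw [h2]
      exact ⟨(mul_le_mul_of_nonneg_right (min_le_left _ _) (sq_nonneg t)).trans h3,
        h4.trans (mul_le_mul_of_nonneg_right (le_max_left _ _) (sq_nonneg t))⟩
    · obtain ⟨h3, h4⟩ := hq1 t (hx.trans (min_le_right _ _))
      rw [h2]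
      exact ⟨(mul_le_mul_of_nonneg_right (min_le_right _ _) (sq_nonneg t)).trans h3,
        h4.trans (mul_le_mul_of_nonneg_right (le_max_right _ _) (sq_nonneg t))⟩
  -- reduction to a compact set
  have hred : ∀ x, ∃ y ∈ Icc 0 L, f x = f y ∧ dl L x = dl L y := by
    intro x
    have hfl1 := Int.floor_le (x / L)
    have hfl2 := Int.lt_floor_add_one (x / L)
    set k : ℤ := ⌊x / L⌋ with hk
    refine ⟨x - k * L, ⟨?_, ?_⟩, ?_, ?_⟩
    · rw [le_div_iff₀ hL] at hfl1; linarith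
    · rw [div_lt_iff₀ hL] at hfl2; linarith
    · have e1 : x = (x - k * L) + k * L := by ring
      conv_lhs => rw [e1]
      exact hper.int_mul k _
    · have e1 : x = (x - k * L) + (2 * k : ℤ) * (L / 2) := by push_cast; ring
      conv_lhs => rw [e1]
      exact dl_add_int hL _ _
  have hcpt : IsCompact (Icc 0 L ∩ {x | ε ≤ dl L x}) :=
    isCompact_Icc.inter_right (isClosed_le continuous_const (continuous_dl hL))
  obtain ⟨m, hm, hm'⟩ := hcpt.exists_forall_le' (a := 0) hf.continuous.continuousOn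
    (fun x hx => hpos x (lt_of_lt_of_le hε' hx.2))
  obtain ⟨M, hM⟩ := (isCompact_Icc (a := (0 : ℝ)) (b := L)).exists_bound_of_continuousOn
    hf.continuous.continuousOn
  have hM0 : 0 ≤ M := (norm_nonneg _).trans (hM 0 ⟨le_rfl, hL.le⟩)
  refine ⟨min (min c0 c1) (m / (L / 4) ^ 2), max (max C0 C1) (M / ε ^ 2), ?_, ?_, ?_⟩
  · exact lt_min (lt_min hc0 hc1) (by positivity)
  · exact lt_of_lt_of_le (lt_of_lt_of_le hC0 (le_max_left _ _)) (le_max_left _ _)
  intro x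
  have hsq : 0 ≤ dl L x ^ 2 := sq_nonneg _
  rcases le_total (dl L x) ε with h | h
  · obtain ⟨h3, h4⟩ := hnear x h
    exact ⟨(mul_le_mul_of_nonneg_right (min_le_left _ _) hsq).trans h3,
      h4.trans (mul_le_mul_of_nonneg_right (le_max_left _ _) hsq)⟩
  · obtain ⟨y, hy, hfy, hdy⟩ := hred x
    constructor
    · have h5 := hm' y ⟨hy, by show ε ≤ dl L y; rw [← hdy]; exact h⟩
      rw [← hfy] at h5
      have h6 : dl L x ^ 2 ≤ (L / 4) ^ 2 := by
        have := dl_le_quarter hL x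
        have := dl_nonneg L x
        gcongr
      calc min (min c0 c1) (m / (L / 4) ^ 2) * dl L x ^ 2
          ≤ m / (L / 4) ^ 2 * dl L x ^ 2 := mul_le_mul_of_nonneg_right (min_le_right _ _) hsq
        _ ≤ m / (L / 4) ^ 2 * (L / 4) ^ 2 := mul_le_mul_of_nonneg_left h6 (by positivity)
        _ = m := by field_simp
        _ ≤ f x := h5
    · have h5 := (le_abs_self _).trans (hM y hy)
      rw [← hfy] at h5
      have h6 : ε ^ 2 ≤ dl L x ^ 2 := by gcongr
      calc f x ≤ M := h5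
        _ = M / ε ^ 2 * ε ^ 2 := by field_simp
        _ ≤ M / ε ^ 2 * dl L x ^ 2 := mul_le_mul_of_nonneg_left h6 (by positivity)
        _ ≤ _ := mul_le_mul_of_nonneg_right (le_max_right _ _) hsq

lemma ne_of_dl_pos {L : ℝ} (hL : 0 < L) {x : ℝ} (h : 0 < dl L x) (j : ℤ) : x ≠ j * (L / 2) := by
  intro hx
  have := dl_le hL x j
  rw [hx, sub_self, abs_zero] at this
  rw [hx] at h
  linarith

/-- The conformal factor is comparable to the squared distance to the branch points. -/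
theorem exists_quad {L1 L2 : ℝ} {ρ σ : ℝ → ℝ} (hS : LiouvilleSphere L1 L2 ρ σ) :
    ∃ κ K : ℝ, 0 < κ ∧ 0 < K ∧ ∀ x y,
      κ ^ 2 * (dl L1 x ^ 2 + dl L2 y ^ 2) ≤ ρ x + σ y ∧
        ρ x + σ y ≤ K ^ 2 * (dl L1 x ^ 2 + dl L2 y ^ 2) := by
  have hdA : deriv (fun x => ρ x + σ 0) = deriv ρ := by
    funext x; rw [deriv_add_const]
  have hdB : deriv (fun y => ρ 0 + σ y) = deriv σ := by
    funext x; rw [deriv_const_add]
  obtain ⟨cA, CA, hcA, hCA, hA⟩ := periodic_quad hS.L1_pos (f := fun x => ρ x + σ 0)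
    ((contDiff_infty.mp hS.smooth_rho 2).add contDiff_const)
    (fun x => by show ρ (x + L1) + σ 0 = ρ x + σ 0; rw [hS.periodic_rho x])
    (fun x hx => hS.pos x 0 fun j k hj => absurd hj (ne_of_dl_pos hS.L1_pos hx j))
    hS.zero hS.zero_rho (by rw [hdA]; exact hS.rho2.1) (by rw [hdA]; exact hS.rho2.2)
  obtain ⟨cB, CB, hcB, hCB, hB⟩ := periodic_quad hS.L2_pos (f := fun y => ρ 0 + σ y)
    (contDiff_const.add (contDiff_infty.mp hS.smooth_sigma 2))
    (fun x => by show ρ 0 + σ (x + L2) = ρ 0 + σ x; rw [hS.periodic_sigma x])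
    (fun y hy => hS.pos 0 y fun j k _ => ne_of_dl_pos hS.L2_pos hy k)
    hS.zero hS.zero_sigma (by rw [hdB]; exact hS.sigma2.1) (by rw [hdB]; exact hS.sigma2.2)
  refine ⟨Real.sqrt (min cA cB), Real.sqrt (max CA CB), Real.sqrt_pos.mpr (lt_min hcA hcB),
    Real.sqrt_pos.mpr (lt_of_lt_of_le hCA (le_max_left _ _)), ?_⟩
  intro x y
  rw [Real.sq_sqrt (lt_min hcA hcB).le, Real.sq_sqrt (hCA.le.trans (le_max_left _ _))]
  have e : ρ x + σ y = (ρ x + σ 0) + (ρ 0 + σ y) := by linarith [hS.zero]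
  obtain ⟨hA1, hA2⟩ := hA x
  obtain ⟨hB1, hB2⟩ := hB y
  have s1 : 0 ≤ dl L1 x ^ 2 := sq_nonneg _
  have s2 : 0 ≤ dl L2 y ^ 2 := sq_nonneg _
  have t1 := mul_le_mul_of_nonneg_right (min_le_left cA cB) s1
  have t2 := mul_le_mul_of_nonneg_right (min_le_right cA cB) s2
  have t3 := mul_le_mul_of_nonneg_right (le_max_left CA CB) s1
  have t4 := mul_le_mul_of_nonneg_right (le_max_right CA CB) s2
  rw [e]
  constructor <;> nlinarith only [hA1, hA2, hB1, hB2, t1, t2, t3, t4]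

/-! ### Paths -/

lemma SameOrbit.refl' (L1 L2 : ℝ) (q : ℝ × ℝ) : SameOrbit L1 L2 q q :=
  ⟨0, 0, Or.inl ⟨by simp, by simp⟩⟩

lemma straight_mem' {w : ℝ → ℝ → ℝ} (L1 L2 : ℝ) (p q : ℝ × ℝ) :
    pathLength w (fun t => (p.1 + t * (q.1 - p.1), p.2 + t * (q.2 - p.2))) ∈
      {ℓ | ∃ γ : ℝ → ℝ × ℝ, ContDiff ℝ 1 γ ∧ γ 0 = p ∧ SameOrbit L1 L2 q (γ 1) ∧
        ℓ = pathLength w γ} := by
  refine ⟨_, ?_, ?_, ⟨0, 0, Or.inl ⟨?_, ?_⟩⟩, rfl⟩
  · fun_prop
  · simp
  · simp
  · simp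

lemma bddBelow_lengths {w : ℝ → ℝ → ℝ} (L1 L2 : ℝ) (p q : ℝ × ℝ) :
    BddBelow {ℓ | ∃ γ : ℝ → ℝ × ℝ, ContDiff ℝ 1 γ ∧ γ 0 = p ∧ SameOrbit L1 L2 q (γ 1) ∧
        ℓ = pathLength w γ} := by
  refine ⟨0, ?_⟩
  rintro _ ⟨γ, _, _, _, rfl⟩
  exact pathLength_nonneg w γ

/-- Points that are close in the plane are close on the sphere. -/
theorem mem_of_close {L1 L2 : ℝ} (hL1 : 0 < L1) (hL2 : 0 < L2) {w : ℝ → ℝ → ℝ}
    (hwc : Continuous fun p : ℝ × ℝ => w p.1 p.2) {K : ℝ} (hK : 0 < K)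
    (hw : ∀ x y, w x y ≤ K ^ 2 * (dl L1 x ^ 2 + dl L2 y ^ 2)) {p q : ℝ × ℝ} {δ R : ℝ}
    (h1 : |q.1 - p.1| ≤ δ) (h2 : |q.2 - p.2| ≤ δ) (h : 2 * K * (dB L1 L2 p + δ) * δ < R) :
    q ∈ geodDisc w L1 L2 p R := by
  refine lt_of_le_of_lt ((csInf_le (bddBelow_lengths L1 L2 p q)
    (straight_mem' L1 L2 p q)).trans ?_) h
  have hδ : 0 ≤ δ := (abs_nonneg _).trans h1
  unfold pathLength
  set γ : ℝ → ℝ × ℝ := fun t => (p.1 + t * (q.1 - p.1), p.2 + t * (q.2 - p.2)) with hγ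
  have hder : ∀ t, deriv γ t = (q.1 - p.1, q.2 - p.2) := by
    intro t
    have h1 : HasDerivAt (fun t : ℝ => p.1 + t * (q.1 - p.1)) (q.1 - p.1) t := by
      have := ((hasDerivAt_id t).mul_const (q.1 - p.1)).const_add p.1
      exact this.congr_deriv (by simp)
    have h2 : HasDerivAt (fun t : ℝ => p.2 + t * (q.2 - p.2)) (q.2 - p.2) t := by
      have := ((hasDerivAt_id t).mul_const (q.2 - p.2)).const_add p.2
      exact this.congr_deriv (by simp)
    exact (h1.prodMk h2).deriv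
  have hcd : ContDiff ℝ 1 γ := by fun_prop
  have hle : ∀ t ∈ Icc (0 : ℝ) 1, Real.sqrt (w (γ t).1 (γ t).2 *
      ((deriv γ t).1 ^ 2 + (deriv γ t).2 ^ 2)) ≤ 2 * K * (dB L1 L2 p + δ) * δ := by
    intro t ht
    have hB0 := dB_nonneg L1 L2 p
    have hdist : max |(γ t).1 - p.1| |(γ t).2 - p.2| ≤ δ := by
      have e1 : (γ t).1 - p.1 = t * (q.1 - p.1) := by simp [hγ]
      have e2 : (γ t).2 - p.2 = t * (q.2 - p.2) := by simp [hγ]
      rw [e1, e2, abs_mul, abs_mul, abs_of_nonneg ht.1]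
      refine max_le ?_ ?_
      · calc t * |q.1 - p.1| ≤ 1 * |q.1 - p.1| :=
              mul_le_mul_of_nonneg_right ht.2 (abs_nonneg _)
          _ ≤ δ := by rw [one_mul]; exact h1
      · calc t * |q.2 - p.2| ≤ 1 * |q.2 - p.2| :=
              mul_le_mul_of_nonneg_right ht.2 (abs_nonneg _)
          _ ≤ δ := by rw [one_mul]; exact h2
    have hBt : dB L1 L2 (γ t) ≤ dB L1 L2 p + δ := by
      have := dB_le_add hL1 hL2 (γ t) p
      linarith
    have hBt0 := dB_nonneg L1 L2 (γ t)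
    have g1 : dl L1 (γ t).1 ≤ dB L1 L2 (γ t) := le_max_left _ _
    have g2 : dl L2 (γ t).2 ≤ dB L1 L2 (γ t) := le_max_right _ _
    have g3 : dl L1 (γ t).1 ^ 2 ≤ (dB L1 L2 p + δ) ^ 2 :=
      pow_le_pow_left₀ (dl_nonneg _ _) (g1.trans hBt) 2
    have g4 : dl L2 (γ t).2 ^ 2 ≤ (dB L1 L2 p + δ) ^ 2 :=
      pow_le_pow_left₀ (dl_nonneg _ _) (g2.trans hBt) 2
    have g5 : w (γ t).1 (γ t).2 ≤ 2 * K ^ 2 * (dB L1 L2 p + δ) ^ 2 := by
      refine (hw _ _).trans ?_
      have : K ^ 2 * (dl L1 (γ t).1 ^ 2 + dl L2 (γ t).2 ^ 2) ≤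
        K ^ 2 * (2 * (dB L1 L2 p + δ) ^ 2) :=
        mul_le_mul_of_nonneg_left (by linarith) (sq_nonneg K)
      linarith
    have g6 : (deriv γ t).1 ^ 2 + (deriv γ t).2 ^ 2 ≤ 2 * δ ^ 2 := by
      rw [hder t]
      have e1 : (q.1 - p.1) ^ 2 ≤ δ ^ 2 := by
        rw [← sq_abs]; exact pow_le_pow_left₀ (abs_nonneg _) h1 2
      have e2 : (q.2 - p.2) ^ 2 ≤ δ ^ 2 := by
        rw [← sq_abs]; exact pow_le_pow_left₀ (abs_nonneg _) h2 2
      show (q.1 - p.1) ^ 2 + (q.2 - p.2) ^ 2 ≤ 2 * δ ^ 2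
      linarith
    apply Real.sqrt_le_iff.mpr
    refine ⟨by positivity, ?_⟩
    calc w (γ t).1 (γ t).2 * ((deriv γ t).1 ^ 2 + (deriv γ t).2 ^ 2)
        ≤ (2 * K ^ 2 * (dB L1 L2 p + δ) ^ 2) * ((deriv γ t).1 ^ 2 + (deriv γ t).2 ^ 2) :=
          mul_le_mul_of_nonneg_right g5 (by positivity)
      _ ≤ (2 * K ^ 2 * (dB L1 L2 p + δ) ^ 2) * (2 * δ ^ 2) :=
          mul_le_mul_of_nonneg_left g6 (by positivity)
      _ = _ := by ring
  calc ∫ t in (0 : ℝ)..1, Real.sqrt (w (γ t).1 (γ t).2 *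
        ((deriv γ t).1 ^ 2 + (deriv γ t).2 ^ 2))
      ≤ ∫ _ in (0 : ℝ)..1, 2 * K * (dB L1 L2 p + δ) * δ :=
        intervalIntegral.integral_mono_on zero_le_one
          ((integrand_continuous hwc hcd).intervalIntegrable _ _)
          (continuous_const.intervalIntegrable _ _) hle
    _ = _ := by simp

/-- A function whose speed is controlled by that of the path varies little along the path. -/
lemma path_le {w : ℝ → ℝ → ℝ} (hwc : Continuous fun p : ℝ × ℝ => w p.1 p.2)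
    {γ : ℝ → ℝ × ℝ} (hγ : ContDiff ℝ 1 γ) {φ φ' : ℝ → ℝ} (hφ : ∀ t, HasDerivAt φ (φ' t) t)
    (hφ' : Continuous φ') {c : ℝ} (hc : 0 ≤ c)
    (hle : ∀ t ∈ Icc (0 : ℝ) 1, c * |φ' t| ≤
      Real.sqrt (w (γ t).1 (γ t).2 * ((deriv γ t).1 ^ 2 + (deriv γ t).2 ^ 2)))
    {t : ℝ} (ht : t ∈ Icc (0 : ℝ) 1) : c * |φ t - φ 0| ≤ pathLength w γ := by
  have hI := integrand_continuous hwc hγ
  have h1 : ∫ s in (0 : ℝ)..t, φ' s = φ t - φ 0 :=
    intervalIntegral.integral_eq_sub_of_hasDerivAt (fun t _ => hφ t)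
      (hφ'.intervalIntegrable _ _)
  rw [← h1]
  calc c * |∫ s in (0 : ℝ)..t, φ' s|
      ≤ c * ∫ s in (0 : ℝ)..t, |φ' s| :=
        mul_le_mul_of_nonneg_left
          (intervalIntegral.abs_integral_le_integral_abs ht.1) hc
    _ = ∫ s in (0 : ℝ)..t, c * |φ' s| := by
        rw [intervalIntegral.integral_const_mul]
    _ ≤ ∫ s in (0 : ℝ)..t, Real.sqrt (w (γ s).1 (γ s).2 *
          ((deriv γ s).1 ^ 2 + (deriv γ s).2 ^ 2)) := by
        apply intervalIntegral.integral_mono_on ht.1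
          ((continuous_const.mul hφ'.abs).intervalIntegrable _ _)
          (hI.intervalIntegrable _ _)
        intro s hs
        exact hle s ⟨hs.1, hs.2.trans ht.2⟩
    _ ≤ pathLength w γ := by
        unfold pathLength
        rw [← intervalIntegral.integral_add_adjacent_intervals (b := t)
          (hI.intervalIntegrable 0 t) (hI.intervalIntegrable t 1)]
        have : 0 ≤ ∫ s in t..1, Real.sqrt (w (γ s).1 (γ s).2 *
          ((deriv γ s).1 ^ 2 + (deriv γ s).2 ^ 2)) :=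
          intervalIntegral.integral_nonneg ht.2 fun _ _ => Real.sqrt_nonneg _
        linarith

/-- Points that are close on the sphere have representatives that are close in the plane. -/
theorem close_of_mem {L1 L2 : ℝ} (hL1 : 0 < L1) (hL2 : 0 < L2) {w : ℝ → ℝ → ℝ}
    (hwc : Continuous fun p : ℝ × ℝ => w p.1 p.2) {κ : ℝ} (hκ : 0 < κ)
    (hw : ∀ x y, κ ^ 2 * (dl L1 x ^ 2 + dl L2 y ^ 2) ≤ w x y) {p q : ℝ × ℝ} {R : ℝ}
    (hR : 0 < R) (hRs : R < κ * (min L1 L2) ^ 2 / 16) (h : q ∈ geodDisc w L1 L2 p R) :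
    ∃ q0 : ℝ × ℝ, SameOrbit L1 L2 q q0 ∧ |q0.1 - p.1| ≤ Real.sqrt (4 * R / κ) ∧
      |q0.2 - p.2| ≤ Real.sqrt (4 * R / κ) ∧
      (2 * Real.sqrt (4 * R / κ) ≤ dB L1 L2 p →
        |q0.1 - p.1| ≤ 2 * R / (κ * dB L1 L2 p) ∧
          |q0.2 - p.2| ≤ 2 * R / (κ * dB L1 L2 p)) := by
  obtain ⟨_, ⟨γ, hγ, h0, h1, rfl⟩, hlt⟩ := exists_lt_of_csInf_lt
    ⟨_, straight_mem' L1 L2 p q⟩ h
  have hdc : Continuous (deriv γ) := hγ.continuous_deriv_one
  have hγc : Continuous γ := hγ.continuous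
  have hd : ∀ t, HasDerivAt γ (deriv γ t) t := fun t =>
    (hγ.differentiable one_ne_zero t).hasDerivAt
  have hd1 : ∀ t, HasDerivAt (fun t => (γ t).1) (deriv γ t).1 t := fun t => (hd t).fst
  have hd2 : ∀ t, HasDerivAt (fun t => (γ t).2) (deriv γ t).2 t := fun t => (hd t).snd
  have hc1 : Continuous fun t => (deriv γ t).1 := continuous_fst.comp hdc
  have hc2 : Continuous fun t => (deriv γ t).2 := continuous_snd.comp hdc
  -- comparison of the speeds
  have hspeed : ∀ (t a b : ℝ), 0 ≤ a → κ ^ 2 * a ^ 2 ≤ w (γ t).1 (γ t).2 →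
      b ^ 2 ≤ (deriv γ t).1 ^ 2 + (deriv γ t).2 ^ 2 →
      κ * (a * |b|) ≤
        Real.sqrt (w (γ t).1 (γ t).2 * ((deriv γ t).1 ^ 2 + (deriv γ t).2 ^ 2)) := by
    intro t a b ha h3 h4
    apply Real.le_sqrt_of_sq_le
    calc (κ * (a * |b|)) ^ 2 = (κ ^ 2 * a ^ 2) * b ^ 2 := by
          rw [mul_pow, mul_pow, sq_abs]; ring
      _ ≤ w (γ t).1 (γ t).2 * ((deriv γ t).1 ^ 2 + (deriv γ t).2 ^ 2) := by
          apply mul_le_mul h3 h4 (sq_nonneg _)
          exact (by positivity : (0 : ℝ) ≤ κ ^ 2 * a ^ 2).trans h3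
  have hq1 : ∀ t, (deriv γ t).1 ^ 2 ≤ (deriv γ t).1 ^ 2 + (deriv γ t).2 ^ 2 := fun t => by
    linarith [sq_nonneg (deriv γ t).2]
  have hq2 : ∀ t, (deriv γ t).2 ^ 2 ≤ (deriv γ t).1 ^ 2 + (deriv γ t).2 ^ 2 := fun t => by
    linarith [sq_nonneg (deriv γ t).1]
  have hR1 : R / κ < L1 ^ 2 / 16 := by
    rw [div_lt_iff₀ hκ]
    have : (min L1 L2) ^ 2 ≤ L1 ^ 2 :=
      pow_le_pow_left₀ (le_min hL1.le hL2.le) (min_le_left _ _) 2
    nlinarith
  have hR2 : R / κ < L2 ^ 2 / 16 := by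
    rw [div_lt_iff₀ hκ]
    have : (min L1 L2) ^ 2 ≤ L2 ^ 2 :=
      pow_le_pow_left₀ (le_min hL1.le hL2.le) (min_le_right _ _) 2
    nlinarith
  have hη : 0 < Real.sqrt (4 * R / κ) := Real.sqrt_pos.mpr (by positivity)
  -- first bound
  have b1 : ∀ t ∈ Icc (0 : ℝ) 1, |(γ t).1 - p.1| ≤ Real.sqrt (4 * R / κ) := by
    intro t ht
    have e := path_le hwc hγ (φ := fun t => dlInt L1 (γ t).1)
      (φ' := fun t => dl L1 (γ t).1 * (deriv γ t).1)
      (fun t => (dlInt_hasDerivAt hL1 _).comp t (hd1 t))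
      (((continuous_dl hL1).comp (continuous_fst.comp hγc)).mul hc1) hκ.le
      (fun t _ => by
        rw [abs_mul, abs_of_nonneg (dl_nonneg _ _)]
        apply hspeed t _ _ (dl_nonneg _ _) _ (hq1 t)
        refine le_trans ?_ (hw _ _)
        apply mul_le_mul_of_nonneg_left _ (sq_nonneg κ)
        linarith [sq_nonneg (dl L2 (γ t).2)]) ht
    have e1 : |dlInt L1 (γ t).1 - dlInt L1 p.1| ≤ R / κ := by
      rw [le_div_iff₀ hκ, mul_comm, ← h0]
      exact e.trans hlt.le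
    have e2 := sq_le_of_dlInt hL1 hR1 e1
    apply Real.abs_le_sqrt
    calc ((γ t).1 - p.1) ^ 2 ≤ 4 * (R / κ) := e2
      _ = 4 * R / κ := by ring
  have b2 : ∀ t ∈ Icc (0 : ℝ) 1, |(γ t).2 - p.2| ≤ Real.sqrt (4 * R / κ) := by
    intro t ht
    have e := path_le hwc hγ (φ := fun t => dlInt L2 (γ t).2)
      (φ' := fun t => dl L2 (γ t).2 * (deriv γ t).2)
      (fun t => (dlInt_hasDerivAt hL2 _).comp t (hd2 t))
      (((continuous_dl hL2).comp (continuous_snd.comp hγc)).mul hc2) hκ.le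
      (fun t _ => by
        rw [abs_mul, abs_of_nonneg (dl_nonneg _ _)]
        apply hspeed t _ _ (dl_nonneg _ _) _ (hq2 t)
        refine le_trans ?_ (hw _ _)
        apply mul_le_mul_of_nonneg_left _ (sq_nonneg κ)
        linarith [sq_nonneg (dl L1 (γ t).1)]) ht
    have e1 : |dlInt L2 (γ t).2 - dlInt L2 p.2| ≤ R / κ := by
      rw [le_div_iff₀ hκ, mul_comm, ← h0]
      exact e.trans hlt.le
    have e2 := sq_le_of_dlInt hL2 hR2 e1
    apply Real.abs_le_sqrt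
    calc ((γ t).2 - p.2) ^ 2 ≤ 4 * (R / κ) := e2
      _ = 4 * R / κ := by ring
  refine ⟨γ 1, h1, b1 1 ⟨zero_le_one, le_rfl⟩, b2 1 ⟨zero_le_one, le_rfl⟩, ?_⟩
  intro hdB
  have hp : 0 < dB L1 L2 p := by linarith
  have hBt : ∀ t ∈ Icc (0 : ℝ) 1, dB L1 L2 p / 2 ≤ dB L1 L2 (γ t) := by
    intro t ht
    have e1 := dB_le_add hL1 hL2 p (γ t)
    have e2 : max |p.1 - (γ t).1| |p.2 - (γ t).2| ≤ Real.sqrt (4 * R / κ) := by
      rw [abs_sub_comm p.1, abs_sub_comm p.2]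
      exact max_le (b1 t ht) (b2 t ht)
    linarith
  have hwt : ∀ t ∈ Icc (0 : ℝ) 1, κ ^ 2 * (dB L1 L2 p / 2) ^ 2 ≤ w (γ t).1 (γ t).2 := by
    intro t ht
    refine le_trans ?_ (hw _ _)
    apply mul_le_mul_of_nonneg_left _ (sq_nonneg κ)
    have e1 : (dB L1 L2 p / 2) ^ 2 ≤ dB L1 L2 (γ t) ^ 2 :=
      pow_le_pow_left₀ (by positivity) (hBt t ht) 2
    have e2 : dB L1 L2 (γ t) ^ 2 ≤ dl L1 (γ t).1 ^ 2 + dl L2 (γ t).2 ^ 2 := by
      rcases max_choice (dl L1 (γ t).1) (dl L2 (γ t).2) with h | h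
      · unfold dB; rw [h]; linarith [sq_nonneg (dl L2 (γ t).2)]
      · unfold dB; rw [h]; linarith [sq_nonneg (dl L1 (γ t).1)]
    linarith
  constructor
  · have e := path_le hwc hγ hd1 hc1 (c := κ * (dB L1 L2 p / 2)) (by positivity)
      (fun t ht => by
        rw [mul_assoc]
        exact hspeed t _ _ (by positivity) (hwt t ht) (hq1 t))
      (t := 1) ⟨zero_le_one, le_rfl⟩
    rw [h0] at e
    rw [le_div_iff₀ (by positivity)]
    nlinarith [e.trans hlt.le]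
  · have e := path_le hwc hγ hd2 hc2 (c := κ * (dB L1 L2 p / 2)) (by positivity)
      (fun t ht => by
        rw [mul_assoc]
        exact hspeed t _ _ (by positivity) (hwt t ht) (hq2 t))
      (t := 1) ⟨zero_le_one, le_rfl⟩
    rw [h0] at e
    rw [le_div_iff₀ (by positivity)]
    nlinarith [e.trans hlt.le]

end Pool.Agent.H24.LSphere
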